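import Pool.Agent.Work.MP_64ea0f_cs_helper81.FTG2

set_option autoImplicit false

/-! # FTG: parabolic subgroups have the full profinite topology -/

namespace Pool.CS

namespace FTG

variable {D D' : Rd} {J : Set D.S} (E : Sys D D' J)

/-- the class of the vertex `x'` is reached from the base class by `κ (ex x')` -/
theorem path (hS : Stmt_SGN) (hB : Stmt_BAS) (hV : Stmt_VX1) (hV2 : Stmt_VX2) (hV4 : Stmt_VX4)
    (hP : Stmt_PAR) {H : Subgroup D.W} {L : LS (D.lg H) D.X} (hL : D.IsFlip H L)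
    {b : D.X} {κ : D.X → RC (D.lg H)} {c : H →* RC (D.lg H)} (hdev : D.Dev H L b κ c)
    {LJ : LS (D'.lg (H.comap E.f)) (D'.YT ∅)} (hLJ : D'.IsFlipJ (H.comap E.f) ∅ LJ)
    {Q : Type} {q : D'.YT ∅ → Q} {LQ : LS (D'.lg (H.comap E.f)) Q}
    (F : Fold (H.comap E.f) LJ Q q LQ) {T : LS (D.lg H) Q}
    (hT : ∀ a a' v, Und E H a a' → LQ.τ a' v ≠ v → T.τ a v = LQ.τ a' v)
    (b' : D'.YT ∅) (hb' : b'.1 = D'.Ps) :
    ∀ (n : ℕ) (x : D'.YT ∅), (x.1 \ D'.Ps).ncard = n → ∀ y : D.X, y.1 = ex E x.1 →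
      T.r (q b') (κ y) = q x := by
  obtain ⟨hVP, _, _, _, _, _, _, _, _, _, hfin⟩ := hV D'
  intro n
  induction n with
  | zero =>
    intro x hx y hy
    obtain ⟨h1, _, h3⟩ := hfin x.1 x.2.1 D'.Ps hVP
    have h4 : x.1 \ D'.Ps = ∅ := (Set.ncard_eq_zero h1).mp hx
    have h5 : x.1 = D'.Ps := h3 (Set.sdiff_eq_empty.mp h4)
    have h6 : x = b' := Subtype.ext (h5.trans hb'.symm)
    have h7 : y = b := by
      apply Subtype.ext
      rw [hy, h5, ex_Ps E hP, hdev.base]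
    rw [h7, hdev.one, LS.r_one, h6]
  | succ n ih =>
    intro x hx y hy
    have h1 : (x.1 \ D'.Ps).Nonempty := by
      rw [Set.nonempty_iff_ne_empty]
      intro h
      rw [h, Set.ncard_empty] at hx
      omega
    obtain ⟨φ, hφx, hφP⟩ := h1
    obtain ⟨ψ, hψ, hψP, _, hcard⟩ := hV4 D' x.1 x.2.1 D'.Ps hVP φ hφx hφP
    obtain ⟨hz, hzm, hzf, hzne, _⟩ := hV2 D' x.1 x.2.1 ψ hψ
    let z : D'.YT ∅ := ⟨D'.fl x.1 ψ, yj hS hz⟩
    let w : D.X := ⟨ex E z.1, ex_Vx E hV hP hz⟩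
    have hψR : ψ ∈ D'.Rt := x.2.1.sub hψ.1
    let a : D.Lb H := ⟨D.lab H (io E ψ), io E ψ, io_Rt E hψR, rfl⟩
    let a' : D'.Lb (H.comap E.f) := ⟨D'.lab (H.comap E.f) ψ, ψ, hψR, rfl⟩
    have ha' : -ψ ∈ a'.1 := LSX.lab_neg (LSX.lab_self ψ)
    have ha : io E (-ψ) ∈ a.1 := by
      rw [map_neg]
      exact LSX.lab_neg (LSX.lab_self _)
    have hU : Und E H a a' := und_of E ha' ha
    -- the move in the small cubing
    obtain ⟨m1, m2⟩ := mv_to hS hV2 hLJ (x := z) hzm ha'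
    have m3 : LJ.τ a' z = x := Subtype.ext (m1.trans hzf)
    obtain ⟨m4, m5⟩ := F.mov a' z m2
    rw [m3] at m4
    -- the move in the big cubing
    have e1 : L.τ a w = y := by
      apply Subtype.ext
      rw [(hL a w).1 (io E (-ψ)) (ex_Mn E hS hB hP hz hzm) ha, hy]
      change D.fl (ex E (D'.fl x.1 ψ)) (io E (-ψ)) = _
      rw [← ex_fl, hzf]
    have e2 : y ≠ w := by
      intro h
      have h2 : ex E x.1 = ex E (D'.fl x.1 ψ) := by
        rw [← hy]
        exact congrArg Subtype.val h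
      apply hzne
      ext χ
      rw [← mem_ex E, ← mem_ex E, h2]
    have e3 : κ y = κ w * rg (D.lg H) a := by
      have h4 := hdev.step a w (by rw [e1]; exact e2)
      rw [e1] at h4
      exact h4
    have e4 : T.r (q b') (κ w) = q z := by
      apply ih z _ w rfl
      have h6 : (z.1 \ D'.Ps).ncard + 1 = n + 1 := hcard.trans hx
      omega
    rw [e3, LS.r_mul, e4, LS.r_rg, hT a a' (q z) hU m5, m4]

end FTG

open FTG in
theorem ftg_thm : Stmt_BAS → Stmt_SGN → Stmt_PAR → Stmt_RES → Stmt_VX1 → Stmt_VX2 → Stmt_VX4 →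
    Stmt_LSX → Stmt_DEV → Stmt_YJ4 → Stmt_DEEPG → Stmt_FLD → Stmt_FTG := by
  intro hB hS hP hRES hV hV2 hV4 hLSX hDEV hYJ4 hDG hFLD D J N hNJ hN
  obtain ⟨D', i, f, hi, hir, hf, hfr, hk, hfs, _⟩ := hRES D J
  let E : Sys D D' J := ⟨i, f, hi, hir, hf, hfr, hk, hfs⟩
  obtain ⟨H, hH⟩ := hDG D
  obtain ⟨⟨L, hL⟩, _⟩ := hLSX D H hH
  obtain ⟨b, κ, c, hdev, _⟩ := hDEV D H hH L hL
  have hH' : D'.Deep (H.comap E.f) := deep E hS hB hV hP hH
  obtain ⟨⟨L', hL'⟩, _⟩ := hLSX D' (H.comap E.f) hH'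
  obtain ⟨b', κ', c', hdev', hcinj'⟩ := hDEV D' (H.comap E.f) hH' L' hL'
  have hpar : Finite (D'.par ∅) := by
    have h1 : D'.par ∅ = ⊥ := by
      unfold Rd.par
      rw [Set.image_empty, Subgroup.closure_empty]
    rw [h1]
    infer_instance
  obtain ⟨⟨LJ, hLJ⟩, hLJ2⟩ := hYJ4 D' (H.comap E.f) hH' ∅ hpar
  obtain ⟨heqv, _⟩ := hLJ2 LJ hLJ
  obtain ⟨ι, Q, q, LQ, ⟨i0⟩, hq1, hq2, hq3, hq4, hq5, hq6, _⟩ :=
    hFLD D' (H.comap E.f) hH' L' hL' b' κ' c' hdev' hcinj' ∅ hpar LJ hLJ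
  have F : Fold (H.comap E.f) LJ (Q i0) (q i0) (LQ i0) :=
    { sur := hq1 i0
      act := fun n x y x' y' => hq2 i0 n (nj hS n) x y x' y'
      mov := hq3 i0
      rep := hq4 i0
      free := fun h hh => hq5 i0 h hh (nj hS h)
      orb := by
        intro M hM1 hM2
        obtain ⟨P, hP1, hP2⟩ := hq6 i0 M hM1 hM2
        refine ⟨P, hP1, fun x => ?_⟩
        obtain ⟨m, hm, _, h⟩ := hP2 x
        exact ⟨m, hm, h⟩ }
  obtain ⟨T, hT1, hT2⟩ := big_ls E hS hB hV hP hH hLJ F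
  have heq : ∀ n ∈ H.comap E.f, ∀ (a : D'.Lb (H.comap E.f)) (x x' : D'.YT ∅),
      x'.1 = D'.act n x.1 → (LJ.τ a x').1 = D'.act n (LJ.τ a x).1 := by
    intro n hn a x x' hx
    refine heqv n (nj hS n) a a ?_ x x' hx
    ext χ
    constructor
    · intro h
      exact ⟨D'.ρ n⁻¹ χ, LSX.Lb_act a h (Subgroup.inv_mem _ hn), LSX.ρ_inv' n χ⟩
    · rintro ⟨χ', h, rfl⟩
      exact LSX.Lb_act a h hn
  obtain ⟨hVP, hVact, h1, hm, hmem, hmem', hMn, hfree, _⟩ := hV D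
  have hfi : H.FiniteIndex := hH.fin
  -- the subgroup of `D'.W`
  have hNf : (N.comap E.f).FiniteIndex := by
    rw [Subgroup.finiteIndex_iff, Subgroup.index_comap]
    change N.relIndex f.range ≠ 0
    rw [hfr]
    exact hN
  have hHf : (H.comap E.f).FiniteIndex := hH'.fin
  let N' : Subgroup D'.W := N.comap E.f ⊓ H.comap E.f
  have hN'f : N'.FiniteIndex := inferInstance
  let base : D'.YT ∅ := ⟨D'.Ps, yj hS (hV D').1⟩
  obtain ⟨P, hPf, hPo⟩ := F.orb N'.normalCore inferInstance inferInstance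
  -- orbits
  have hor : ∀ v : Q i0, ∃ m ∈ N', ac hS hV F m v ∈ P := by
    intro v
    obtain ⟨x, rfl⟩ := F.sur v
    obtain ⟨m, hm1, x', hx', hx2⟩ := hPo x
    refine ⟨m, N'.normalCore_le hm1, ?_⟩
    rw [ac_q]
    have h2 : gx hS hV m x = x' := Subtype.ext hx'.symm
    rw [h2]
    exact hx2
  choose mm hmm hmP using hor
  have hPf' : Finite P := hPf
  obtain ⟨K, _, hK, hKm, _⟩ := stab_fin T (fun (g : N') v => ac hS hV F g.1 v)
    (fun v => ac_one hS hV F v)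
    (fun g g' v => ac_mul hS hV F g.1 g'.1 v)
    (by
      intro g a v
      have hg : g.1 ∈ H.comap E.f := g.2.2
      by_cases h : ∃ a', Und E H a a' ∧ (LQ i0).τ a' v ≠ v
      · obtain ⟨a', u1, u2⟩ := h
        have u3 := ac_com hS hV F heq g.1 hg a' v
        have u4 : (LQ i0).τ a' (ac hS hV F g.1 v) ≠ ac hS hV F g.1 v := by
          rw [u3]
          intro h5
          apply u2
          have h6 := congrArg (ac hS hV F g.1⁻¹) h5
          rw [← ac_mul, ← ac_mul, inv_mul_cancel, ac_one, ac_one] at h6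
          exact h6
        change ac hS hV F g.1 (T.τ a v) = T.τ a (ac hS hV F g.1 v)
        rw [hT1 a a' v u1 u2, hT1 a a' _ u1 u4, u3]
      · have h' : ∀ a', Und E H a a' → (LQ i0).τ a' v = v := by
          intro a' u1
          by_contra u2
          exact h ⟨a', u1, u2⟩
        change ac hS hV F g.1 (T.τ a v) = T.τ a (ac hS hV F g.1 v)
        rw [hT2 a v h', hT2 a _ (fun a' u => by rw [ac_com hS hV F heq g.1 hg a' v, h' a' u])])
    (q i0 base)
    (by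
      intro g hg
      have h2 : q i0 (gx hS hV g.1 base) = q i0 base := by
        rw [← ac_q hS hV F]
        exact hg
      exact Subtype.ext (F.free g.1 g.2.2 base _ rfl h2))
    (fun v => (⟨ac hS hV F (mm v) v, hmP v⟩ : P))
    (by
      intro v v' h
      have h2 : ac hS hV F (mm v) v = ac hS hV F (mm v') v' := congrArg Subtype.val h
      refine ⟨⟨(mm v)⁻¹ * mm v', N'.mul_mem (N'.inv_mem (hmm v)) (hmm v')⟩, ?_⟩
      change v = ac hS hV F ((mm v)⁻¹ * mm v') v'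
      rw [ac_mul, ← h2, ← ac_mul, inv_mul_cancel, ac_one])
  -- the finite index subgroup
  let M₀ : Subgroup D.W := (K.comap c).map H.subtype
  have hKc : (K.comap c).index ≠ 0 := by
    rw [Subgroup.index_comap]
    have h2 : K.IsFiniteRelIndex c.range := Subgroup.isFiniteRelIndex_of_finiteIndex
    exact h2.relIndex_ne_zero
  have hM₀ : M₀.FiniteIndex := by
    rw [Subgroup.finiteIndex_iff]
    change ((K.comap c).map H.subtype).index ≠ 0
    rw [Subgroup.index_map_subtype]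
    exact mul_ne_zero hKc (Subgroup.finiteIndex_iff.mp hfi)
  refine ⟨M₀.normalCore, inferInstance, inferInstance, ?_⟩
  rintro h ⟨hh, hhJ⟩
  obtain ⟨h', hh', rfl⟩ := M₀.normalCore_le hh
  have hk' : c h' ∈ K := hh'
  obtain ⟨g, hg⟩ := (hKm _).mp hk'
  have hhJ' : h'.1 ∈ f.range := by
    rw [hfr]
    exact hhJ
  obtain ⟨h'', hh''⟩ := hhJ'
  have hH'' : h'' ∈ H.comap E.f := by
    change f h'' ∈ H
    rw [hh'']
    exact h'.2
  let y : D.X := ⟨D.act h'.1 b.1, hVact b.1 b.2 h'.1⟩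
  have h2 : c h' = κ y := by
    have h3 := hdev.hol h' b y rfl
    rw [hdev.one, mul_one] at h3
    exact h3.symm
  have h4 : y.1 = ex E (gx hS hV h'' base).1 := by
    change D.act h'.1 b.1 = ex E (D'.act h'' D'.Ps)
    rw [ex_act E hP, ex_Ps E hP, hdev.base]
    change _ = D.act (f h'') D.Ps
    rw [hh'']
  rw [h2, path E hS hB hV hV2 hV4 hP hL hdev hLJ F hT1 base rfl _ (gx hS hV h'' base) rfl y h4] at hg
  have h5 : ac hS hV F h'' (q i0 base) = ac hS hV F g.1 (q i0 base) := by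
    rw [ac_q]
    exact hg
  have h6 : ac hS hV F (g.1⁻¹ * h'') (q i0 base) = q i0 base := by
    rw [ac_mul, h5, ← ac_mul, inv_mul_cancel, ac_one]
  rw [ac_q] at h6
  have h7 := F.free (g.1⁻¹ * h'') (Subgroup.mul_mem _ (Subgroup.inv_mem _ g.2.2) hH'') base _ rfl h6
  rw [inv_mul_eq_one] at h7
  change h'.1 ∈ N
  rw [← hh'', ← h7]
  exact g.2.1

end Pool.CS
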