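import Pool.Agent.Work.MP_64ea0f_cs.InterfaceG4
import Pool.Agent.Work.MP_64ea0f_cs_helper53.LSX

set_option autoImplicit false

/-! # FTG, part 1: the root system of a parabolic subgroup inside of the big one -/

namespace Pool.CS

namespace FTG

/-- restriction data: `D'` is the root system of `par J` -/
structure Sys (D D' : Rd) (J : Set D.S) where
  i : D'.S → D.S
  f : D'.W →* D.W
  inj : Function.Injective i
  rng : Set.range i = J
  finj : Function.Injective f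
  frng : f.range = D.par J
  kk : ∀ s t, D'.k s t = D.k (i s) (i t)
  fs : ∀ s, f (D'.σ s) = D.σ (i s)

variable {D D' : Rd} {J : Set D.S} (E : Sys D D' J)

/-- the linear map `e s ↦ e (i s)` -/
noncomputable def io : D'.V →ₗ[ℝ] D.V := Fintype.linearCombination ℝ (fun s => D.e (E.i s))

theorem io_apply (v : D'.V) : io E v = ∑ s, v s • D.e (E.i s) := rfl

theorem io_at (v : D'.V) (s : D'.S) : io E v (E.i s) = v s := by
  rw [io_apply, Finset.sum_apply, Finset.sum_eq_single s]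
  · simp [Rd.e]
  · intro t _ hts
    have h : E.i s ≠ E.i t := fun h => hts (E.inj h).symm
    simp [Rd.e, h]
  · intro h
    exact absurd (Finset.mem_univ s) h

theorem io_off (v : D'.V) {t : D.S} (ht : t ∉ J) : io E v t = 0 := by
  rw [io_apply, Finset.sum_apply]
  refine Finset.sum_eq_zero fun s _ => ?_
  have h : t ≠ E.i s := by
    rintro rfl
    exact ht (E.rng.subset (Set.mem_range_self s))
  simp [Rd.e, h]

theorem io_In (v : D'.V) : D.In J (io E v) := fun _ hs => io_off E v hs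

theorem io_inj : Function.Injective (io E) := by
  intro v w h
  funext s
  rw [← io_at E v s, ← io_at E w s, h]

theorem io_surj (v : D.V) (hv : D.In J v) : ∃ v', io E v' = v := by
  refine ⟨fun s => v (E.i s), ?_⟩
  funext t
  by_cases ht : t ∈ J
  · rw [← E.rng] at ht
    obtain ⟨s, rfl⟩ := ht
    rw [io_at]
  · rw [io_off E _ ht, hv t ht]

theorem io_e (s : D'.S) : io E (D'.e s) = D.e (E.i s) := by
  rw [io_apply, Finset.sum_eq_single s]
  · simp [Rd.e]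
  · intro t _ hts
    simp [Rd.e, hts]
  · intro h
    exact absurd (Finset.mem_univ s) h

theorem io_sum (v : D'.V) (g : D.S → ℝ) : ∑ s, v s * g (E.i s) = ∑ s, io E v s * g s := by
  refine Fintype.sum_of_injective E.i E.inj _ _ ?_ ?_
  · intro s hs
    have h : s ∉ J := by
      rw [← E.rng]
      exact hs
    rw [io_off E v h, zero_mul]
  · intro s
    rw [io_at]

theorem io_B (v w : D'.V) : D'.B v w = D.B (io E v) (io E w) := by
  unfold Rd.B bform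
  have h1 : ∀ s, ∑ t, v s * w t * D'.k s t = v s * ∑ t, io E w t * D.k (E.i s) t := by
    intro s
    rw [← io_sum E w (fun t => D.k (E.i s) t), Finset.mul_sum]
    exact Finset.sum_congr rfl fun t _ => by rw [E.kk]; ring
  simp only [h1]
  rw [io_sum E v (fun s => ∑ t, io E w t * D.k s t)]
  refine Finset.sum_congr rfl fun s _ => ?_
  rw [Finset.mul_sum]
  exact Finset.sum_congr rfl fun t _ => by ring

/-- equivariance -/
theorem io_ρ (w : D'.W) : ∀ v, io E (D'.ρ w v) = D.ρ (E.f w) (io E v) := by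
  have hs : ∀ s v, io E (D'.ρ (D'.σ s) v) = D.ρ (E.f (D'.σ s)) (io E v) := by
    intro s v
    rw [D'.refl, E.fs, D.refl, map_sub, map_smul]
    have h1 : io E (Pi.single s 1 : D'.S → ℝ) = (Pi.single (E.i s) 1 : D.S → ℝ) := io_e E s
    have h2 : bform D'.k v (Pi.single s 1) = bform D.k (io E v) (Pi.single (E.i s) 1) := by
      have h3 := io_B E v (Pi.single s 1)
      rw [h1] at h3
      exact h3
    rw [h1, h2]
  have hw : w ∈ Subgroup.closure (Set.range D'.σ) := by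
    rw [D'.gen]
    exact Subgroup.mem_top w
  induction hw using Subgroup.closure_induction with
  | mem x hx =>
    obtain ⟨s, rfl⟩ := hx
    exact hs s
  | one =>
    intro v
    rw [map_one, map_one, map_one, Module.End.one_apply, Module.End.one_apply]
  | mul x y _ _ hx hy =>
    intro v
    rw [map_mul, Module.End.mul_apply, map_mul, map_mul, Module.End.mul_apply, hx, hy]
  | inv x _ hx =>
    intro v
    have h := hx (D'.ρ x⁻¹ v)
    rw [LSX.ρ_inv'] at h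
    rw [h, map_inv E.f, LSX.ρ_inv]

theorem io_Rt {φ : D'.V} (h : φ ∈ D'.Rt) : io E φ ∈ D.Rt := by
  obtain ⟨w, s, rfl⟩ := h
  exact ⟨E.f w, E.i s, by rw [io_ρ, io_e]⟩

theorem Rt_io (hP : Stmt_PAR) {φ : D.V} (h : φ ∈ D.Rt) (hJ : D.In J φ) :
    ∃ φ' ∈ D'.Rt, io E φ' = φ := by
  obtain ⟨w, hw, s, hs, rfl⟩ := (hP D J).2.1 φ h hJ
  rw [← E.frng] at hw
  rw [← E.rng] at hs
  obtain ⟨w', rfl⟩ := hw
  obtain ⟨s', rfl⟩ := hs
  exact ⟨D'.ρ w' (D'.e s'), ⟨w', s', rfl⟩, by rw [io_ρ, io_e]⟩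

theorem io_Ps (hP : Stmt_PAR) (φ : D'.V) : φ ∈ D'.Ps ↔ io E φ ∈ D.Ps := by
  constructor
  · rintro ⟨h1, h2⟩
    refine ⟨io_Rt E h1, ?_⟩
    intro t
    by_cases ht : t ∈ J
    · rw [← E.rng] at ht
      obtain ⟨s, rfl⟩ := ht
      rw [io_at]
      exact h2 s
    · rw [io_off E _ ht]
  · rintro ⟨h1, h2⟩
    obtain ⟨φ', h3, h4⟩ := Rt_io E hP h1 (io_In E φ)
    rw [← io_inj E h4]
    refine ⟨h3, ?_⟩
    intro s
    rw [← io_at E φ' s, h4]
    exact h2 _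

theorem io_On (hP : Stmt_PAR) (w : D'.W) (φ : D'.V) : D'.On w φ ↔ D.On (E.f w) (io E φ) := by
  unfold Rd.On
  rw [io_Ps E hP, io_ρ, map_inv]

/-- the extension of a vertex -/
def ex (x : Set D'.V) : Set D.V := io E '' x ∪ {φ | φ ∈ D.Ps ∧ ¬ D.In J φ}

theorem mem_ex {x : Set D'.V} {φ : D'.V} : io E φ ∈ ex E x ↔ φ ∈ x := by
  constructor
  · rintro (⟨ψ, hψ, h⟩ | ⟨_, h⟩)
    · rwa [← io_inj E h]
    · exact absurd (io_In E φ) h
  · intro h
    exact Or.inl ⟨φ, h, rfl⟩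

theorem ex_Vx (hV : Stmt_VX1) (hP : Stmt_PAR) {x : Set D'.V} (hx : D'.Vx x) :
    D.Vx (ex E x) := by
  obtain ⟨hVP, _⟩ := hV D
  have hpar : ∀ w' : D'.W, E.f w' ∈ D.par J := fun w' => by
    rw [← E.frng]
    exact ⟨w', rfl⟩
  have hout : ∀ w' : D'.W, ∀ φ ∈ D.Ps, ¬ D.In J φ → D.On (E.f w') φ := by
    intro w' φ hφ hφJ
    exact (hP D J).2.2.2.2.2 _ ((D.par J).inv_mem (hpar w')) φ hφ hφJ
  refine ⟨?_, ?_, ?_, ?_⟩
  · rintro φ (⟨ψ, hψ, rfl⟩ | ⟨h, _⟩)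
    · exact io_Rt E (hx.sub hψ)
    · exact h.1
  · intro φ hφ
    by_cases hJ : D.In J φ
    · obtain ⟨φ', h1, rfl⟩ := Rt_io E hP hφ hJ
      rcases hx.tot φ' h1 with h | h
      · exact Or.inl ((mem_ex E).mpr h)
      · right
        rw [← map_neg]
        exact (mem_ex E).mpr h
    · have hJ' : ¬ D.In J (-φ) := by
        intro h
        apply hJ
        intro s hs
        have h1 := h s hs
        rw [Pi.neg_apply, neg_eq_zero] at h1
        exact h1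
      rcases hVP.tot φ hφ with h | h
      · exact Or.inl (Or.inr ⟨h, hJ⟩)
      · exact Or.inr (Or.inr ⟨h, hJ'⟩)
  · rintro φ (⟨φ', hφ, rfl⟩ | ⟨hφ, hφJ⟩) ψ (⟨ψ', hψ, rfl⟩ | ⟨hψ, hψJ⟩)
    · obtain ⟨w, h1, h2⟩ := hx.cmp φ' hφ ψ' hψ
      exact ⟨E.f w, (io_On E hP w φ').mp h1, (io_On E hP w ψ').mp h2⟩
    · obtain ⟨w, h1, _⟩ := hx.cmp φ' hφ φ' hφ
      exact ⟨E.f w, (io_On E hP w φ').mp h1, hout w ψ hψ hψJ⟩
    · obtain ⟨w, h1, _⟩ := hx.cmp ψ' hψ ψ' hψ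
      exact ⟨E.f w, hout w φ hφ hφJ, (io_On E hP w ψ').mp h1⟩
    · exact ⟨E.f 1, hout 1 φ hφ hφJ, hout 1 ψ hψ hψJ⟩
  · refine (hx.fin.image (io E)).subset ?_
    rintro φ ⟨(⟨φ', hφ, rfl⟩ | ⟨hφ, _⟩), h2⟩
    · exact ⟨φ', ⟨hφ, fun h => h2 ((io_Ps E hP φ').mp h)⟩, rfl⟩
    · exact absurd hφ h2

theorem ex_Mn (hS : Stmt_SGN) (hB : Stmt_BAS) (hP : Stmt_PAR) {x : Set D'.V} (hx : D'.Vx x)
    {φ : D'.V} (h : D'.Mn x φ) : D.Mn (ex E x) (io E φ) := by
  refine ⟨(mem_ex E).mpr h.1, ?_⟩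
  rintro ψ (⟨ψ', hψ, rfl⟩ | ⟨hψ, hψJ⟩) hsub
  · congr 1
    apply h.2 ψ' hψ
    intro w hw
    exact (io_On E hP w φ).mpr (hsub _ ((io_On E hP w ψ').mp hw))
  · exfalso
    have hR : φ ∈ D'.Rt := hx.sub h.1
    have hR' : -φ ∈ D'.Rt := (hB D').2.2.2.2.2.2.2.2.1 φ hR
    obtain ⟨_, _, _, _, _, _, hneg, _, hex⟩ := hS D'
    obtain ⟨w, hw⟩ := hex (-φ) hR'
    have hpar : E.f w ∈ D.par J := by
      rw [← E.frng]
      exact ⟨w, rfl⟩
    have h1 : D.On (E.f w) ψ := (hP D J).2.2.2.2.2 _ ((D.par J).inv_mem hpar) ψ hψ hψJ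
    have h2 := (io_On E hP w φ).mpr (hsub _ h1)
    exact hneg φ w h2 hw

theorem ex_fl {x : Set D'.V} (φ : D'.V) :
    ex E (D'.fl x φ) = D.fl (ex E x) (io E φ) := by
  have h0 : ∀ ψ, ψ ∈ ex E (D'.fl x φ) ↔ ψ ∈ D.fl (ex E x) (io E φ) := by
    intro ψ
    constructor
    · rintro (⟨ψ', hψ, rfl⟩ | ⟨hψ, hψJ⟩)
      · rcases hψ with h | ⟨h, h2⟩
        · left
          rw [h, map_neg]
        · right
          exact ⟨(mem_ex E).mpr h, fun h3 => h2 (io_inj E h3)⟩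
      · right
        refine ⟨Or.inr ⟨hψ, hψJ⟩, ?_⟩
        intro h
        rw [Set.mem_singleton_iff] at h
        rw [h] at hψJ
        exact hψJ (io_In E φ)
    · rintro (h | ⟨h1 | h1, h2⟩)
      · left
        exact ⟨-φ, Or.inl rfl, by rw [map_neg, h]⟩
      · obtain ⟨ψ', hψ, rfl⟩ := h1
        left
        exact ⟨ψ', Or.inr ⟨hψ, fun h3 => h2 (congrArg (io E) h3)⟩, rfl⟩
      · exact Or.inr h1
  exact Set.ext h0

theorem ex_Ps (hP : Stmt_PAR) : ex E D'.Ps = D.Ps := by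
  ext φ
  constructor
  · rintro (⟨ψ, hψ, rfl⟩ | ⟨h, _⟩)
    · exact (io_Ps E hP ψ).mp hψ
    · exact h
  · intro h
    by_cases hJ : D.In J φ
    · obtain ⟨φ', h1, rfl⟩ := Rt_io E hP h.1 hJ
      exact (mem_ex E).mpr ((io_Ps E hP φ').mpr h)
    · exact Or.inr ⟨h, hJ⟩

theorem In_ρ (hP : Stmt_PAR) {w : D.W} (hw : w ∈ D.par J) {v : D.V} (hv : D.In J v) :
    D.In J (D.ρ w v) := by
  intro s hs
  have h1 := (hP D J).2.2.1 w hw v s hs
  rw [Pi.sub_apply, hv s hs] at h1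
  linarith

theorem ex_act (hP : Stmt_PAR) (w : D'.W) (x : Set D'.V) :
    ex E (D'.act w x) = D.act (E.f w) (ex E x) := by
  have hpar : ∀ w' : D'.W, E.f w' ∈ D.par J := fun w' => by
    rw [← E.frng]
    exact ⟨w', rfl⟩
  have key : ∀ (w : D'.W) (x : Set D'.V), D.act (E.f w) (ex E x) ⊆ ex E (D'.act w x) := by
    rintro w x φ ⟨ψ, (⟨ψ', hψ, rfl⟩ | ⟨hψ, hψJ⟩), rfl⟩
    · rw [← io_ρ]
      exact (mem_ex E).mpr ⟨ψ', hψ, rfl⟩
    · right
      refine ⟨(hP D J).2.2.2.2.2 _ (hpar w) ψ hψ hψJ, ?_⟩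
      intro h
      have h1 := In_ρ hP ((D.par J).inv_mem (hpar w)) h
      rw [LSX.ρ_inv] at h1
      exact hψJ h1
  refine Set.Subset.antisymm ?_ (key w x)
  intro φ hφ
  have h1 : D.ρ (E.f w)⁻¹ φ ∈ D.act (E.f w⁻¹) (ex E (D'.act w x)) := by
    rw [map_inv]
    exact ⟨φ, hφ, rfl⟩
  have h2 := key w⁻¹ _ h1
  have h3 : D'.act w⁻¹ (D'.act w x) = x := by
    ext χ
    constructor
    · rintro ⟨_, ⟨χ', h, rfl⟩, rfl⟩
      rw [LSX.ρ_inv]
      exact h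
    · intro h
      exact ⟨D'.ρ w χ, ⟨χ, h, rfl⟩, LSX.ρ_inv w χ⟩
  rw [h3] at h2
  exact ⟨_, h2, LSX.ρ_inv' _ _⟩

/-- labels -/
theorem io_lab {H : Subgroup D.W} {φ ψ : D'.V} (h : ψ ∈ D'.lab (H.comap E.f) φ) :
    io E ψ ∈ D.lab H (io E φ) := by
  obtain ⟨g, hg, h | h⟩ := h
  · exact ⟨E.f g, hg, Or.inl (by rw [h, io_ρ])⟩
  · exact ⟨E.f g, hg, Or.inr (by rw [h, map_neg, io_ρ])⟩

/-- the restriction of a deep subgroup is deep -/
theorem deep (hS : Stmt_SGN) (hB : Stmt_BAS) (hV : Stmt_VX1) (hP : Stmt_PAR) {H : Subgroup D.W}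
    (hH : D.Deep H) : D'.Deep (H.comap E.f) := by
  have hn : H.Normal := hH.nor
  have hf : H.FiniteIndex := hH.fin
  refine ⟨hn.comap E.f, ?_, ?_, ?_, ?_, ?_⟩
  · rw [Subgroup.finiteIndex_iff, Subgroup.index_comap]
    have h2 : H.IsFiniteRelIndex E.f.range := Subgroup.isFiniteRelIndex_of_finiteIndex
    exact h2.relIndex_ne_zero
  · intro h hh n hn1 hn2
    apply E.finj
    rw [map_one]
    exact hH.tf _ hh n hn1 (by rw [← map_pow, hn2, map_one])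
  · intro h hh φ hφ h1
    apply hH.inv _ hh _ (io_Rt E hφ)
    rw [← io_ρ, h1, map_neg]
  · intro x hx φ ψ h1 h2 h3
    exact io_inj E (hH.self _ (ex_Vx E hV hP hx) _ _ (ex_Mn E hS hB hP hx h1)
      (ex_Mn E hS hB hP hx h2) (io_lab E h3))
  · rintro x hx φ ψ h1 h2 h3 ⟨h, hh, h4⟩
    rw [io_B E]
    refine hH.osc _ (ex_Vx E hV hP hx) _ _ (ex_Mn E hS hB hP hx h1)
      (ex_Mn E hS hB hP hx h2) (fun h5 => h3 (io_inj E h5)) ⟨E.f h, hh, ?_⟩
    rw [← io_ρ, ← io_B]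
    exact h4

end FTG

end Pool.CS
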