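import Pool.Agent.Work.MP_64ea0f_cs_helper81.FTG1
import Pool.Agent.Work.MP_64ea0f_cs_helper63.Orb

set_option autoImplicit false

/-! # FTG, part 2: the right action of the big group on the folded cubing of the small one -/

namespace Pool.CS

namespace FTG

/-- transport of a right action along a relation between the letters -/
theorem push_ls {Λ Λ' : Type} {G : SimpleGraph Λ} {G' : SimpleGraph Λ'} {Q : Type} (L : LS G' Q)
    (U : Λ → Λ' → Prop)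
    (hU : ∀ a a1 a2 v, U a a1 → U a a2 → L.τ a1 v ≠ v → L.τ a2 v ≠ v → a1 = a2)
    (hA : ∀ a b a' b' v, G.Adj a b → U a a' → U b b' → L.τ a' v ≠ v → L.τ b' v ≠ v →
      G'.Adj a' b') :
    ∃ T : LS G Q, (∀ a a' v, U a a' → L.τ a' v ≠ v → T.τ a v = L.τ a' v) ∧
      (∀ a v, (∀ a', U a a' → L.τ a' v = v) → T.τ a v = v) := by
  classical
  let t : Λ → Q → Q := fun a v => if h : ∃ a', U a a' ∧ L.τ a' v ≠ v then L.τ h.choose v else v
  have t1 : ∀ a a' v, U a a' → L.τ a' v ≠ v → t a v = L.τ a' v := by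
    intro a a' v h1 h2
    have hex : ∃ a', U a a' ∧ L.τ a' v ≠ v := ⟨a', h1, h2⟩
    have e1 : t a v = L.τ hex.choose v := dif_pos hex
    rw [e1, hU a _ _ v hex.choose_spec.1 h1 hex.choose_spec.2 h2]
  have t2 : ∀ a v, (∀ a', U a a' → L.τ a' v = v) → t a v = v := by
    intro a v h
    have hex : ¬ ∃ a', U a a' ∧ L.τ a' v ≠ v := by
      rintro ⟨a', h1, h2⟩
      exact h2 (h a' h1)
    exact dif_neg hex
  have hmv : ∀ a v, L.τ a v ≠ v → L.τ a (L.τ a v) ≠ L.τ a v := by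
    intro a v h h2
    rw [L.inv] at h2
    exact h h2.symm
  have key : ∀ a b v, G.Adj a b → ∀ a', U a a' → L.τ a' v ≠ v → (∀ b', U b b' → L.τ b' v = v) →
      t a (t b v) = t b (t a v) := by
    intro a b v hab a' h1 h2 h3
    rw [t2 b v h3, t1 a a' v h1 h2]
    symm
    apply t2
    intro b' hb'
    by_contra h4
    have h5 := hA a b a' b' (L.τ a' v) hab h1 hb' (hmv a' v h2) h4
    apply h4
    have h6 := L.com a' b' h5 (L.τ a' v)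
    rw [L.inv, h3 b' hb'] at h6
    have h7 := congrArg (L.τ a') h6
    rw [L.inv] at h7
    exact h7
  have hne : ∀ a v, (¬ ∃ a', U a a' ∧ L.τ a' v ≠ v) → ∀ a', U a a' → L.τ a' v = v := by
    intro a v h a' h1
    by_contra h2
    exact h ⟨a', h1, h2⟩
  refine ⟨⟨t, ?_, ?_⟩, t1, t2⟩
  · intro a v
    by_cases h : ∃ a', U a a' ∧ L.τ a' v ≠ v
    · obtain ⟨a', h1, h2⟩ := h
      rw [t1 a a' v h1 h2, t1 a a' _ h1 (hmv a' v h2), L.inv]
    · rw [t2 a v (hne a v h), t2 a v (hne a v h)]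
  · intro a b hab v
    by_cases h : ∃ a', U a a' ∧ L.τ a' v ≠ v <;> by_cases k : ∃ b', U b b' ∧ L.τ b' v ≠ v
    · obtain ⟨a', h1, h2⟩ := h
      obtain ⟨b', k1, k2⟩ := k
      have hc := L.com a' b' (hA a b a' b' v hab h1 k1 h2 k2) v
      have m1 : L.τ b' (L.τ a' v) ≠ L.τ a' v := by
        intro h5
        rw [← hc] at h5
        have h6 := congrArg (L.τ a') h5
        rw [L.inv, L.inv] at h6
        exact k2 h6
      have m2 : L.τ a' (L.τ b' v) ≠ L.τ b' v := by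
        intro h5
        rw [hc] at h5
        have h6 := congrArg (L.τ b') h5
        rw [L.inv, L.inv] at h6
        exact h2 h6
      rw [t1 a a' v h1 h2, t1 b b' v k1 k2, t1 a a' _ h1 m2, t1 b b' _ k1 m1, hc]
    · obtain ⟨a', h1, h2⟩ := h
      exact key a b v hab a' h1 h2 (hne b v k)
    · obtain ⟨b', k1, k2⟩ := k
      exact (key b a v hab.symm b' k1 k2 (hne a v h)).symm
    · rw [t2 a v (hne a v h), t2 b v (hne b v k), t2 a v (hne a v h)]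

section
variable {D' : Rd}

theorem In_empty {v : D'.V} (h : D'.In ∅ v) : v = 0 := funext fun s => h s (Set.notMem_empty s)

theorem yj (hS : Stmt_SGN) {x : Set D'.V} (hx : D'.Vx x) : D'.YJ ∅ x := by
  refine ⟨hx, fun φ hφ h => ?_⟩
  rw [In_empty h] at hφ
  exact absurd hφ.1 (hS D').2.2.1

theorem nj (hS : Stmt_SGN) (w : D'.W) : w ∈ D'.NJ ∅ := by
  intro φ
  constructor
  · rintro ⟨hφ, h⟩
    rw [In_empty h] at hφ
    exact absurd hφ.1 (hS D').2.2.1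
  · rintro ⟨hφ, h⟩
    rw [In_empty h] at hφ
    exact absurd hφ.1 (hS D').2.2.1

/-- translation of vertices -/
def gx (hS : Stmt_SGN) (hV : Stmt_VX1) (w : D'.W) (x : D'.YT ∅) : D'.YT ∅ :=
  ⟨D'.act w x.1, yj hS ((hV D').2.1 x.1 x.2.1 w)⟩

/-- the properties of the folded cubing which are used -/
structure Fold (H : Subgroup D'.W) (LJ : LS (D'.lg H) (D'.YT ∅)) (Q : Type)
    (q : D'.YT ∅ → Q) (LQ : LS (D'.lg H) Q) : Prop where
  sur : Function.Surjective q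
  act : ∀ (n : D'.W) (x y x' y' : D'.YT ∅), x'.1 = D'.act n x.1 → y'.1 = D'.act n y.1 →
    q x = q y → q x' = q y'
  mov : ∀ a x, LJ.τ a x ≠ x → LQ.τ a (q x) = q (LJ.τ a x) ∧ LQ.τ a (q x) ≠ q x
  rep : ∀ v, ∃ x, q x = v ∧ ∀ a, LQ.τ a v ≠ v → LJ.τ a x ≠ x
  free : ∀ h ∈ H, ∀ x x' : D'.YT ∅, x'.1 = D'.act h x.1 → q x' = q x → h = 1
  orb : ∀ M : Subgroup D'.W, M.Normal → M.FiniteIndex → ∃ P : Set Q, P.Finite ∧
    ∀ x : D'.YT ∅, ∃ m ∈ M, ∃ x' : D'.YT ∅, x'.1 = D'.act m x.1 ∧ q x' ∈ P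

variable {H : Subgroup D'.W} {LJ : LS (D'.lg H) (D'.YT ∅)} {Q : Type}
    {q : D'.YT ∅ → Q} {LQ : LS (D'.lg H) Q}

/-- the action on the quotient -/
noncomputable def ac (hS : Stmt_SGN) (hV : Stmt_VX1) (F : Fold H LJ Q q LQ) (w : D'.W) (v : Q) :
    Q := q (gx hS hV w (F.sur v).choose)

theorem ac_q (hS : Stmt_SGN) (hV : Stmt_VX1) (F : Fold H LJ Q q LQ) (w : D'.W) (x : D'.YT ∅) :
    ac hS hV F w (q x) = q (gx hS hV w x) :=
  F.act w _ x _ _ rfl rfl (F.sur (q x)).choose_spec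

theorem ac_one (hS : Stmt_SGN) (hV : Stmt_VX1) (F : Fold H LJ Q q LQ) (v : Q) :
    ac hS hV F 1 v = v := by
  obtain ⟨x, rfl⟩ := F.sur v
  rw [ac_q]
  congr 1
  exact Subtype.ext ((hV D').2.2.1 x.1)

theorem ac_mul (hS : Stmt_SGN) (hV : Stmt_VX1) (F : Fold H LJ Q q LQ) (w w' : D'.W) (v : Q) :
    ac hS hV F (w * w') v = ac hS hV F w (ac hS hV F w' v) := by
  obtain ⟨x, rfl⟩ := F.sur v
  rw [ac_q, ac_q, ac_q]
  congr 1
  exact Subtype.ext ((hV D').2.2.2.1 w w' x.1)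

theorem ac_com1 (hS : Stmt_SGN) (hV : Stmt_VX1) (F : Fold H LJ Q q LQ)
    (heq : ∀ n ∈ H, ∀ (a : D'.Lb H) (x x' : D'.YT ∅), x'.1 = D'.act n x.1 →
      (LJ.τ a x').1 = D'.act n (LJ.τ a x).1) (w : D'.W) (hw : w ∈ H) (a : D'.Lb H) (v : Q)
    (h : LQ.τ a v ≠ v) : LQ.τ a (ac hS hV F w v) = ac hS hV F w (LQ.τ a v) := by
  obtain ⟨x, rfl, hx⟩ := F.rep v
  have h1 := hx a h
  rw [ac_q, (F.mov a x h1).1, ac_q]
  have h2 : LJ.τ a (gx hS hV w x) = gx hS hV w (LJ.τ a x) := Subtype.ext (heq w hw a x _ rfl)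
  have h3 : LJ.τ a (gx hS hV w x) ≠ gx hS hV w x := by
    rw [h2]
    intro h4
    apply h1
    have h5 : D'.act w (LJ.τ a x).1 = D'.act w x.1 := congrArg Subtype.val h4
    have h6 := congrArg (D'.act w⁻¹) h5
    rw [← (hV D').2.2.2.1, ← (hV D').2.2.2.1, inv_mul_cancel, (hV D').2.2.1, (hV D').2.2.1] at h6
    exact Subtype.ext h6
  rw [(F.mov a _ h3).1, h2]

theorem ac_com (hS : Stmt_SGN) (hV : Stmt_VX1) (F : Fold H LJ Q q LQ)
    (heq : ∀ n ∈ H, ∀ (a : D'.Lb H) (x x' : D'.YT ∅), x'.1 = D'.act n x.1 →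
      (LJ.τ a x').1 = D'.act n (LJ.τ a x).1) (w : D'.W) (hw : w ∈ H) (a : D'.Lb H) (v : Q) :
    LQ.τ a (ac hS hV F w v) = ac hS hV F w (LQ.τ a v) := by
  by_cases h : LQ.τ a v = v
  · rw [h]
    by_contra h2
    have h3 := ac_com1 hS hV F heq w⁻¹ (H.inv_mem hw) a _ h2
    rw [← ac_mul, inv_mul_cancel, ac_one, h] at h3
    have h4 := congrArg (ac hS hV F w) h3
    rw [← ac_mul, mul_inv_cancel, ac_one] at h4
    exact h2 h4.symm
  · exact ac_com1 hS hV F heq w hw a v h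

/-- moves of the restricted action -/
theorem mv_of (hLJ : D'.IsFlipJ H ∅ LJ) {a : D'.Lb H} {x : D'.YT ∅} (h : LJ.τ a x ≠ x) :
    ∃ φ, D'.Mn x.1 φ ∧ φ ∈ a.1 ∧ (LJ.τ a x).1 = D'.fl x.1 φ := by
  by_contra h1
  apply h
  apply (hLJ a x).2
  intro φ h2 h3 h4
  exact h1 ⟨φ, h2, h3, (hLJ a x).1 φ h2 h3 h4⟩

theorem mv_to (hS : Stmt_SGN) (hV2 : Stmt_VX2) (hLJ : D'.IsFlipJ H ∅ LJ) {a : D'.Lb H}
    {x : D'.YT ∅} {φ : D'.V} (h : D'.Mn x.1 φ) (h2 : φ ∈ a.1) :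
    (LJ.τ a x).1 = D'.fl x.1 φ ∧ LJ.τ a x ≠ x := by
  obtain ⟨h3, _, _, h4, _⟩ := hV2 D' x.1 x.2.1 φ h
  have h5 := (hLJ a x).1 φ h h2 (yj hS h3)
  refine ⟨h5, fun h6 => h4 ?_⟩
  rw [← h5, h6]

end

section
variable {D D' : Rd} {J : Set D.S} (E : Sys D D' J)

/-- labels of `D'` under a label of `D` -/
def Und (H : Subgroup D.W) (a : D.Lb H) (a' : D'.Lb (H.comap E.f)) : Prop :=
  ∀ φ ∈ a'.1, io E φ ∈ a.1

theorem und_of {H : Subgroup D.W} {a : D.Lb H} {a' : D'.Lb (H.comap E.f)} {φ : D'.V}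
    (h : φ ∈ a'.1) (h2 : io E φ ∈ a.1) : Und E H a a' := by
  intro ψ hψ
  rw [LSX.Lb_eq a' h] at hψ
  rw [LSX.Lb_eq a h2]
  exact io_lab E hψ

/-- the right action of the big right-angled group -/
theorem big_ls (hS : Stmt_SGN) (hB : Stmt_BAS) (hV : Stmt_VX1) (hP : Stmt_PAR)
    {H : Subgroup D.W} (hH : D.Deep H) {LJ : LS (D'.lg (H.comap E.f)) (D'.YT ∅)}
    (hLJ : D'.IsFlipJ (H.comap E.f) ∅ LJ) {Q : Type} {q : D'.YT ∅ → Q}
    {LQ : LS (D'.lg (H.comap E.f)) Q} (F : Fold (H.comap E.f) LJ Q q LQ) :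
    ∃ T : LS (D.lg H) Q, (∀ a a' v, Und E H a a' → LQ.τ a' v ≠ v → T.τ a v = LQ.τ a' v) ∧
      (∀ a v, (∀ a', Und E H a a' → LQ.τ a' v = v) → T.τ a v = v) := by
  apply push_ls LQ (Und E H)
  · intro a a1 a2 v u1 u2 m1 m2
    obtain ⟨x, rfl, hx⟩ := F.rep v
    obtain ⟨φ1, n1, l1, _⟩ := mv_of hLJ (hx a1 m1)
    obtain ⟨φ2, n2, l2, _⟩ := mv_of hLJ (hx a2 m2)
    have h1 := LSX.uniq hH (ex_Vx E hV hP x.2.1) a (ex_Mn E hS hB hP x.2.1 n1) (u1 φ1 l1)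
      (ex_Mn E hS hB hP x.2.1 n2) (u2 φ2 l2)
    have h2 := io_inj E h1
    rw [h2] at l2
    exact Subtype.ext ((LSX.Lb_eq a1 l1).trans (LSX.Lb_eq a2 l2).symm)
  · intro a b a' b' v hab ua ub ma mb
    obtain ⟨x, rfl, hx⟩ := F.rep v
    obtain ⟨φ1, n1, l1, _⟩ := mv_of hLJ (hx a' ma)
    obtain ⟨φ2, n2, l2, _⟩ := mv_of hLJ (hx b' mb)
    have h1 := LSX.cross hB hH (ex_Vx E hV hP x.2.1) hab (ex_Mn E hS hB hP x.2.1 n1) (ua φ1 l1)
      (ex_Mn E hS hB hP x.2.1 n2) (ub φ2 l2)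
    rw [← io_B] at h1
    refine ⟨?_, φ1, l1, φ2, l2, h1⟩
    rintro rfl
    exact LSX.Lb_ne hab.ne (ua φ2 l2) (ub φ2 l2) rfl

end

end FTG

end Pool.CS
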